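import Mathlib
import Pool.Agent.H80.PermIdDefs
import Pool.Agent.H80.PermId

open Pool.Agent.H80.PermId

theorem Pool.Agent.Results.MP_9bc296_ag.GenericSymmetric.result (k : Type) [Field k]
    (h2 : (2 : k) ≠ 0) :
    (∀ m n t : ℕ, 2 ≤ t → t ≤ m → t ≤ n → (permIdeal t (generic k m n)).IsPrime → t = m ∧ t = n) ∧
    (∀ n t : ℕ, 2 ≤ t → t ≤ n → (permIdeal t (symmetric k n)).IsPrime → t = n) :=
  main k h2
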